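import Pool.Agent.helper91.RB.Spec6

/-!
# Project rb (MP_24e2e7_nt): row CE2
-/

set_option autoImplicit false

namespace Pool.Agent.RB

open NumberField IsDedekindDomain Module
open scoped nonZeroDivisors Real Classical IsMulCommutative

theorem CE2_nat (k : ℕ) : IsIntegral ℤ (k : ℂ) := by
  have h : (k : ℂ) = algebraMap ℤ ℂ (k : ℤ) := by simp
  rw [h]
  exact isIntegral_algebraMap

theorem CE2_int (k : ℤ) : IsIntegral ℤ (k : ℂ) := by
  have h : (k : ℂ) = algebraMap ℤ ℂ k := by simp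
  rw [h]
  exact isIntegral_algebraMap

theorem CE2_two : IsIntegral ℤ (2 : ℂ) := by
  have := CE2_nat 2
  rwa [Nat.cast_ofNat] at this

/-- the elements which are integral at the primes above 2 -/
def CE2_Z : Subring ℂ where
  carrier := {α | ∃ d : ℕ, Odd d ∧ IsIntegral ℤ ((d : ℂ) * α)}
  one_mem' := ⟨1, odd_one, by simpa using (isIntegral_one : IsIntegral ℤ (1 : ℂ))⟩
  zero_mem' := ⟨1, odd_one, by simpa using (isIntegral_zero : IsIntegral ℤ (0 : ℂ))⟩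
  mul_mem' := by
    rintro x y ⟨d, hd, hx⟩ ⟨e, he, hy⟩
    refine ⟨d * e, hd.mul he, ?_⟩
    have h : ((d * e : ℕ) : ℂ) * (x * y) = ((d : ℂ) * x) * ((e : ℂ) * y) := by
      push_cast
      ring
    rw [h]
    exact hx.mul hy
  add_mem' := by
    rintro x y ⟨d, hd, hx⟩ ⟨e, he, hy⟩
    refine ⟨d * e, hd.mul he, ?_⟩
    have h : ((d * e : ℕ) : ℂ) * (x + y) = (e : ℂ) * ((d : ℂ) * x) + (d : ℂ) * ((e : ℂ) * y) := by
      push_cast
      ring
    rw [h]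
    exact ((CE2_nat e).mul hx).add ((CE2_nat d).mul hy)
  neg_mem' := by
    rintro x ⟨d, hd, hx⟩
    refine ⟨d, hd, ?_⟩
    rw [mul_neg]
    exact hx.neg

theorem CE2_Z_int {x : ℂ} (hx : IsIntegral ℤ x) : x ∈ CE2_Z :=
  ⟨1, odd_one, by simpa using hx⟩

theorem CE2_Z_root {x : ℂ} {M : ℕ} (hM : M ≠ 0) (hx : x ^ M ∈ CE2_Z) : x ∈ CE2_Z := by
  obtain ⟨d, hd, hx⟩ := hx
  refine ⟨d, hd, ?_⟩
  refine IsIntegral.of_pow (n := M) (Nat.pos_of_ne_zero hM) ?_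
  obtain ⟨k, rfl⟩ := Nat.exists_eq_succ_of_ne_zero hM
  have h : ((d : ℂ) * x) ^ (k + 1) = (d : ℂ) ^ k * ((d : ℂ) * x ^ (k + 1)) := by ring
  rw [h]
  exact ((CE2_nat d).pow k).mul hx

/-- `(1 - ζ)^(2^h) = 2 * unit` -/
theorem CE2_unit (h : ℕ) : ∀ ζ : ℂ, IsPrimitiveRoot ζ (2 ^ (h + 1)) →
    ∃ u : ℂ, u ≠ 0 ∧ IsIntegral ℤ u ∧ IsIntegral ℤ u⁻¹ ∧ (1 - ζ) ^ 2 ^ h = 2 * u := by
  induction h with
  | zero =>
    intro ζ hζ
    rw [zero_add, pow_one] at hζ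
    have h1 : ζ = -1 := hζ.eq_neg_one_of_two_right
    refine ⟨1, one_ne_zero, isIntegral_one, by rw [inv_one]; exact isIntegral_one, ?_⟩
    rw [h1]
    norm_num
  | succ h ih =>
    intro ζ hζ
    have hζi : IsIntegral ℤ ζ := hζ.isIntegral (by positivity)
    have hodd : (-1 : ℂ) = ζ ^ 2 ^ (h + 1) := by
      have h1 : IsPrimitiveRoot (ζ ^ 2 ^ (h + 1)) 2 :=
        hζ.pow (by positivity) (by rw [pow_succ])
      exact h1.eq_neg_one_of_two_right.symm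
    have hneg : IsPrimitiveRoot (-ζ) (2 ^ (h + 1 + 1)) := by
      have h2 : -ζ = ζ ^ (2 ^ (h + 1) + 1) := by
        rw [pow_succ, ← hodd]
        ring
      rw [h2]
      apply hζ.pow_of_coprime
      apply Nat.Coprime.pow_right
      rw [Nat.coprime_two_right, pow_succ]
      exact ⟨2 ^ h, by ring⟩
    have key : ∀ ξ : ℂ, IsPrimitiveRoot ξ (2 ^ (h + 1 + 1)) → -ξ = ξ ^ (2 ^ (h + 1) + 1) →
        IsIntegral ℤ ((1 + ξ) / (1 - ξ)) := by
      intro ξ hξ he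
      have hξi : IsIntegral ℤ ξ := hξ.isIntegral (by positivity)
      have hne : ξ ≠ 1 := hξ.ne_one (Nat.one_lt_two_pow (by omega))
      have h3 : (1 + ξ) / (1 - ξ) = ∑ i ∈ Finset.range (2 ^ (h + 1) + 1), ξ ^ i := by
        rw [geom_sum_eq hne, ← he, div_eq_div_iff (sub_ne_zero.2 hne.symm) (sub_ne_zero.2 hne)]
        ring
      rw [h3]
      exact IsIntegral.sum _ fun i _ => hξi.pow i
    have hne1 : ζ ≠ 1 := hζ.ne_one (Nat.one_lt_two_pow (by omega))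
    have hne2 : -ζ ≠ 1 := hneg.ne_one (Nat.one_lt_two_pow (by omega))
    have hi1 := key ζ hζ (by rw [pow_succ, ← hodd]; ring)
    have hi2 := key (-ζ) hneg (by
      rw [pow_succ, neg_pow, ← hodd]
      have : Even (2 ^ (h + 1)) := by
        rw [pow_succ]
        exact ⟨2 ^ h, by ring⟩
      rw [this.neg_one_pow]
      ring)
    obtain ⟨u, hu0, hu1, hu2, hu3⟩ := ih (ζ ^ 2) (hζ.pow (by positivity) (by rw [pow_succ' 2 (h + 1)]))
    have h10 : (1 : ℂ) - ζ ≠ 0 := sub_ne_zero.2 hne1.symm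
    have h11 : (1 : ℂ) + ζ ≠ 0 := by
      intro h
      exact hne2 (by linear_combination (-1 : ℂ) * h)
    refine ⟨u * ((1 - ζ) / (1 + ζ)) ^ 2 ^ h, ?_, ?_, ?_, ?_⟩
    · exact mul_ne_zero hu0 (pow_ne_zero _ (div_ne_zero h10 h11))
    · refine hu1.mul (IsIntegral.pow ?_ _)
      have e : (1 - ζ) / (1 + ζ) = (1 + -ζ) / (1 - -ζ) := by
        rw [sub_neg_eq_add, ← sub_eq_add_neg]
      rw [e]
      exact hi2
    · rw [mul_inv, ← inv_pow, inv_div]
      exact hu2.mul (hi1.pow _)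
    · rw [← mul_assoc, ← hu3, ← mul_pow, pow_succ' 2 h, pow_mul]
      congr 1
      field_simp
      ring

theorem CE2_rat (T : ℤ) (hT : IsIntegral ℤ ((T : ℂ) / 2)) : Even T := by
  have h1 : ((T : ℂ) / 2) = algebraMap ℚ ℂ ((T : ℚ) / 2) := by
    rw [map_div₀]
    simp
  rw [h1] at hT
  have h2 : IsIntegral ℤ ((T : ℚ) / 2) :=
    (isIntegral_algebraMap_iff (algebraMap ℚ ℂ).injective).1 hT
  obtain ⟨n, hn⟩ := IsIntegrallyClosed.isIntegral_iff.1 h2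
  rw [eq_intCast] at hn
  have h3 : (T : ℚ) = ((2 * n : ℤ) : ℚ) := by
    push_cast
    rw [hn]
    ring
  have h4 : T = 2 * n := by exact_mod_cast h3
  rw [h4]
  exact even_two_mul n


theorem CE2_key (hCO2 : CO2_stmt) (h : ℕ) (ζ : ℂ) (hζ : IsPrimitiveRoot ζ (2 ^ (h + 1)))
    (v : ℕ → ℚ) (M : ℕ) (hM : M ≠ 0)
    (hT : ((1 - ζ) * ∑ i ∈ Finset.range (2 ^ h), ((v i : ℚ) : ℂ) * ζ ^ i) ^ M / 2 ∈ CE2_Z) :
    ∃ d : ℕ, Odd d ∧ ∀ i < 2 ^ h, ∃ z : ℤ, (d : ℚ) * v i = z := by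
  have hζi : IsIntegral ℤ ζ := hζ.isIntegral (by positivity)
  have hne1 : ζ ≠ 1 := hζ.ne_one (Nat.one_lt_two_pow (by omega))
  have h10 : (1 : ℂ) - ζ ≠ 0 := sub_ne_zero.2 hne1.symm
  have hπi : IsIntegral ℤ (1 - ζ) := isIntegral_one.sub hζi
  have hodd : ζ ^ 2 ^ h = -1 := by
    have h1 : IsPrimitiveRoot (ζ ^ 2 ^ h) 2 := hζ.pow (by positivity) (by rw [pow_succ])
    exact h1.eq_neg_one_of_two_right
  obtain ⟨u, hu0, hu1, hu2, hu3⟩ := CE2_unit h ζ hζ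
  obtain ⟨n, hn⟩ : ∃ n, 2 ^ h = n + 1 := ⟨2 ^ h - 1, by
    have := Nat.one_le_two_pow (n := h)
    omega⟩
  -- `π' = 2 / π`
  obtain ⟨π', hπ'i, hπ'⟩ : ∃ π' : ℂ, IsIntegral ℤ π' ∧ (2 : ℂ) = (1 - ζ) * π' := by
    refine ⟨(1 - ζ) ^ n * u⁻¹, (hπi.pow n).mul hu2, ?_⟩
    rw [← mul_assoc, ← pow_succ', ← hn, hu3, mul_inv_cancel_right₀ hu0]
  set γ : ℂ := ∑ i ∈ Finset.range (2 ^ h), ((v i : ℚ) : ℂ) * ζ ^ i with hγ
  set q : ℕ → ℚ := fun i => if i = 0 then v 0 + v n else v i - v (i - 1) with hq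
  have hπγ : (1 - ζ) * γ = ∑ i ∈ Finset.range (2 ^ h), ((q i : ℚ) : ℂ) * ζ ^ i := by
    have e1 : (1 - ζ) * γ = γ - ζ * γ := by ring
    rw [e1]
    have e2 : γ = (∑ i ∈ Finset.range n, ((v (i + 1) : ℚ) : ℂ) * ζ ^ (i + 1)) + (v 0 : ℂ) := by
      rw [hγ, hn, Finset.sum_range_succ']
      simp
    have e3 : ζ * γ = (∑ i ∈ Finset.range n, ((v i : ℚ) : ℂ) * ζ ^ (i + 1)) - (v n : ℂ) := by
      rw [hγ, hn, Finset.sum_range_succ, mul_add, Finset.mul_sum]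
      have e4 : ζ * (((v n : ℚ) : ℂ) * ζ ^ n) = -(v n : ℂ) := by
        calc ζ * (((v n : ℚ) : ℂ) * ζ ^ n) = ((v n : ℚ) : ℂ) * ζ ^ (n + 1) := by ring
          _ = -(v n : ℂ) := by rw [← hn, hodd]; ring
      rw [e4, ← sub_eq_add_neg]
      congr 1
      apply Finset.sum_congr rfl
      intro i _
      ring
    rw [e3]
    nth_rw 1 [e2]
    rw [hn, Finset.sum_range_succ']
    have e5 : ∀ i : ℕ, ((q (i + 1) : ℚ) : ℂ) * ζ ^ (i + 1) =
        ((v (i + 1) : ℚ) : ℂ) * ζ ^ (i + 1) - ((v i : ℚ) : ℂ) * ζ ^ (i + 1) := by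
      intro i
      simp only [hq]
      rw [if_neg (Nat.succ_ne_zero i), Nat.add_sub_cancel]
      push_cast
      ring
    rw [Finset.sum_congr rfl (fun i _ => e5 i), Finset.sum_sub_distrib]
    have e6 : q 0 = v 0 + v n := by
      simp [hq]
    rw [e6]
    push_cast
    ring
  obtain ⟨d, hd, hdT⟩ := hT
  obtain ⟨M', rfl⟩ : ∃ M', M = M' + 1 := ⟨M - 1, by omega⟩
  set η : ℂ := (d : ℂ) * ((1 - ζ) * γ) with hη
  set κ : ℂ := (d : ℂ) ^ M' * ((d : ℂ) * (((1 - ζ) * γ) ^ (M' + 1) / 2)) with hκ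
  have hκi : IsIntegral ℤ κ := ((CE2_nat d).pow M').mul hdT
  have hηM : η ^ (M' + 1) = 2 * κ := by
    rw [hη, hκ, mul_pow]
    generalize ((1 - ζ) * γ) ^ (M' + 1) = t
    ring
  have hηi : IsIntegral ℤ η := by
    refine IsIntegral.of_pow (n := M' + 1) (Nat.succ_pos _) ?_
    rw [hηM]
    exact CE2_two.mul hκi
  have hηs : η = ∑ i ∈ Finset.range (2 ^ h), (((d : ℚ) * q i : ℚ) : ℂ) * ζ ^ i := by
    rw [hη, hπγ, Finset.mul_sum]
    apply Finset.sum_congr rfl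
    intro i _
    push_cast
    ring
  have hz : ∀ i < 2 ^ h, ∃ z : ℤ, (d : ℚ) * q i = z := by
    refine hCO2 h ζ hζ (fun i => (d : ℚ) * q i) ?_
    rw [hηs] at hηi
    exact hηi
  choose! z hz using hz
  set X : ℤ := ∑ i ∈ Finset.range (2 ^ h), z i with hX
  set w : ℂ := ∑ i ∈ Finset.range (2 ^ h), ((z i : ℤ) : ℂ) * ∑ j ∈ Finset.range i, ζ ^ j with hw
  have hwi : IsIntegral ℤ w := by
    refine IsIntegral.sum _ fun i _ => (CE2_int _).mul (IsIntegral.sum _ fun j _ => hζi.pow j)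
  have hηX : η = (X : ℂ) - (1 - ζ) * w := by
    rw [hηs, hX, hw]
    push_cast
    rw [Finset.mul_sum, ← Finset.sum_sub_distrib]
    apply Finset.sum_congr rfl
    intro i hi
    have h1 := hz i (Finset.mem_range.1 hi)
    have h2 : ((d : ℚ) : ℂ) * ((q i : ℚ) : ℂ) = ((z i : ℤ) : ℂ) := by
      exact_mod_cast congrArg (fun t : ℚ => (t : ℂ)) h1
    rw [Rat.cast_natCast] at h2
    rw [h2]
    have h3 : (∑ j ∈ Finset.range i, ζ ^ j) * (ζ - 1) = ζ ^ i - 1 := geom_sum_mul ζ i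
    linear_combination (((z i : ℤ) : ℂ)) * (-h3)
  have hXe : Even X := by
    have hXi : IsIntegral ℤ (X : ℂ) := CE2_int X
    have hg := geom_sum₂_mul (X : ℂ) η (M' + 1)
    set g : ℂ := ∑ i ∈ Finset.range (M' + 1), (X : ℂ) ^ i * η ^ (M' + 1 - 1 - i) with hgd
    have hgi : IsIntegral ℤ g := by
      refine IsIntegral.sum _ fun i _ => (hXi.pow _).mul (hηi.pow _)
    have h1 : (X : ℂ) ^ (M' + 1) = (1 - ζ) * (π' * κ + w * g) := by
      have h2 : (X : ℂ) - η = (1 - ζ) * w := by rw [hηX]; ring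
      rw [h2, hηM] at hg
      linear_combination -hg + κ * hπ'
    have h3 : (((X ^ (M' + 1)) ^ 2 ^ h : ℤ) : ℂ) / 2 = u * (π' * κ + w * g) ^ 2 ^ h := by
      push_cast
      rw [h1, mul_pow, hu3]
      ring
    have h4 : Even ((X ^ (M' + 1)) ^ 2 ^ h) := by
      apply CE2_rat
      rw [h3]
      exact hu1.mul (((hπ'i.mul hκi).add (hwi.mul hgi)).pow _)
    have h5 := (Int.even_pow.1 h4).1
    exact (Int.even_pow.1 h5).1
  obtain ⟨X', hX'⟩ := hXe
  have hdγ : (d : ℂ) * γ = π' * (X' : ℂ) - w := by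
    have h1 : (1 - ζ) * ((d : ℂ) * γ) = (1 - ζ) * (π' * (X' : ℂ) - w) := by
      have h2 : (1 - ζ) * ((d : ℂ) * γ) = η := by rw [hη]; ring
      rw [h2, hηX, hX']
      push_cast
      linear_combination (X' : ℂ) * hπ'
    exact mul_left_cancel₀ h10 h1
  have hdγi : IsIntegral ℤ ((d : ℂ) * γ) := by
    rw [hdγ]
    exact (hπ'i.mul (CE2_int X')).sub hwi
  refine ⟨d, hd, ?_⟩
  refine hCO2 h ζ hζ (fun i => (d : ℚ) * v i) ?_
  have h1 : ∑ i ∈ Finset.range (2 ^ h), ((((d : ℚ) * v i) : ℚ) : ℂ) * ζ ^ i = (d : ℂ) * γ := by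
    rw [hγ, Finset.mul_sum]
    apply Finset.sum_congr rfl
    intro i _
    push_cast
    ring
  rw [h1]
  exact hdγi


theorem CE2_gen {G : Type} [CommGroup G] [Finite G] (a : ℕ) (hexp : ∀ g : G, g ^ 2 ^ a = 1) (c : G)
    (χ : G →* ℂˣ) (hc : χ c = -1) :
    ∃ (b : ℕ) (s : G), 1 ≤ b ∧ b ≤ a ∧ orderOf (χ s) = 2 ^ b ∧ ∀ σ, ∃ i : ℕ, χ σ = χ s ^ i := by
  have hfin : Finite χ.range := by
    have h1 : Function.Surjective χ.rangeRestrict := χ.rangeRestrict_surjective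
    exact Finite.of_surjective _ h1
  obtain ⟨⟨ζ, hζ⟩, hgen⟩ := (isCyclic_subgroup_units χ.range).exists_generator
  obtain ⟨s, rfl⟩ := hζ
  have hord : orderOf (χ s) ∣ 2 ^ a := by
    apply orderOf_dvd_of_pow_eq_one
    rw [← map_pow, hexp, map_one]
  obtain ⟨b, hba, hb⟩ := (Nat.dvd_prime_pow Nat.prime_two).1 hord
  have hpow : ∀ σ, ∃ i : ℕ, χ σ = χ s ^ i := by
    intro σ
    have h1 := hgen ⟨χ σ, ⟨σ, rfl⟩⟩
    obtain ⟨k, hk⟩ := h1
    have h2 : χ s ^ k = χ σ := congrArg Subtype.val hk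
    have h3 : χ σ ∈ Subgroup.zpowers (χ s) := ⟨k, h2⟩
    have h4 : IsOfFinOrder (χ s) := by
      rw [← orderOf_pos_iff, hb]
      positivity
    obtain ⟨i, hi⟩ := h4.mem_powers_iff_mem_zpowers.2 h3
    exact ⟨i, hi.symm⟩
  refine ⟨b, s, ?_, hba, hb, hpow⟩
  rcases Nat.eq_zero_or_pos b with h0 | h0
  · exfalso
    rw [h0, pow_zero, orderOf_eq_one_iff] at hb
    obtain ⟨i, hi⟩ := hpow c
    rw [hb, one_pow, hc] at hi
    have h5 : ((-1 : ℂˣ) : ℂ) = ((1 : ℂˣ) : ℂ) := congrArg Units.val hi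
    rw [Units.val_neg, Units.val_one] at h5
    norm_num at h5
  · exact h0

theorem CE2_neg (j : ℕ) : ((-1 : ℂˣ) ^ j = -1) ↔ Odd j := by
  constructor
  · intro h
    rcases Nat.even_or_odd j with he | ho
    · rw [he.neg_one_pow] at h
      have h5 : ((1 : ℂˣ) : ℂ) = ((-1 : ℂˣ) : ℂ) := congrArg Units.val h
      rw [Units.val_neg, Units.val_one] at h5
      norm_num at h5
    · exact ho
  · intro h
    exact h.neg_one_pow

theorem CE2_odds (b : ℕ) : ((Finset.range (2 ^ (b + 1))).filter (fun j => Odd j)).card = 2 ^ b := by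
  have h : (Finset.range (2 ^ (b + 1))).filter (fun j => Odd j) =
      (Finset.range (2 ^ b)).image (fun j => 2 * j + 1) := by
    ext j
    rw [Finset.mem_filter, Finset.mem_range, Finset.mem_image]
    constructor
    · rintro ⟨h1, k, hk⟩
      refine ⟨k, ?_, hk.symm⟩
      rw [Finset.mem_range]
      rw [pow_succ] at h1
      omega
    · rintro ⟨k, hk, rfl⟩
      rw [Finset.mem_range] at hk
      refine ⟨?_, ⟨k, rfl⟩⟩
      rw [pow_succ]
      omega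
  rw [h, Finset.card_image_of_injective, Finset.card_range]
  intro x y hxy
  have : 2 * x + 1 = 2 * y + 1 := hxy
  omega

theorem CE2_card {G : Type} [CommGroup G] [Finite G] (a : ℕ) (hexp : ∀ g : G, g ^ 2 ^ a = 1) (c : G)
    (χ : G →* ℂˣ) (hc : χ c = -1) :
    1 ≤ (Psi χ.ker c).card ∧ (Psi χ.ker c).card ∣ 2 ^ (a - 1) := by
  obtain ⟨b, s, hb1, hba, hord, hpow⟩ := CE2_gen a hexp c χ hc
  choose i hi using hpow
  set ζ : ℂˣ := χ s with hζ
  have hprim : IsPrimitiveRoot (ζ : ℂ) (2 ^ b) := by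
    rw [IsPrimitiveRoot.coe_units_iff, IsPrimitiveRoot.iff_orderOf]
    exact hord
  have hmem : ∀ ψ : G →* ℂˣ, ψ ∈ Psi χ.ker c ↔ (∀ b ∈ χ.ker, ψ b = 1) ∧ ψ c = -1 := by
    intro ψ
    unfold Psi
    rw [Finset.mem_filter]
    exact ⟨fun h => h.2, fun h => ⟨Finset.mem_univ _, h⟩⟩
  have hcard : ((Finset.range (2 ^ b)).filter (fun j => Odd j)).card = (Psi χ.ker c).card := by
    apply Finset.card_nbij (fun j => χ ^ j)
    · intro j hj
      have hj := Finset.mem_filter.1 hj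
      refine (hmem _).2 ⟨fun b hb => ?_, ?_⟩
      · rw [MonoidHom.pow_apply, MonoidHom.mem_ker.1 hb, one_pow]
      · rw [MonoidHom.pow_apply, hc]
        exact hj.2.neg_one_pow
    · intro j hj k hk hjk
      have hj' := Finset.mem_filter.1 hj
      have hk' := Finset.mem_filter.1 hk
      have h1 : ζ ^ j = ζ ^ k := by
        have h2 := DFunLike.congr_fun hjk s
        simpa [MonoidHom.pow_apply] using h2
      apply pow_injOn_Iio_orderOf (x := ζ) _ _ h1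
      · rw [Set.mem_Iio, hord]
        exact Finset.mem_range.1 hj'.1
      · rw [Set.mem_Iio, hord]
        exact Finset.mem_range.1 hk'.1
    · intro ψ hψ
      obtain ⟨hψ1, hψ2⟩ := (hmem ψ).1 hψ
      have hs : χ (s ^ (2 ^ b)) = 1 := by
        rw [map_pow, ← hζ, ← hord, pow_orderOf_eq_one]
      have h1 : ψ s ^ (2 ^ b) = 1 := by
        rw [← map_pow]
        exact hψ1 _ (MonoidHom.mem_ker.2 hs)
      have h2 : ((ψ s : ℂˣ) : ℂ) ^ (2 ^ b) = 1 := by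
        rw [← Units.val_pow_eq_pow_val, h1, Units.val_one]
      have : NeZero (2 ^ b) := ⟨by positivity⟩
      obtain ⟨j, hj, hj2⟩ := hprim.eq_pow_of_pow_eq_one h2
      have h3 : ψ s = ζ ^ j := by
        apply Units.ext
        rw [Units.val_pow_eq_pow_val]
        exact hj2.symm
      have h4 : χ ^ j = ψ := by
        ext σ
        have h5 : σ * (s ^ i σ)⁻¹ ∈ χ.ker := by
          rw [MonoidHom.mem_ker, map_mul, map_inv, map_pow, hi σ, mul_inv_cancel]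
        have h6 := hψ1 _ h5
        rw [map_mul, map_inv, map_pow, mul_inv_eq_one] at h6
        rw [h6, h3, MonoidHom.pow_apply, hi σ, ← pow_mul, ← pow_mul, mul_comm]
      refine ⟨j, ?_, h4⟩
      rw [Finset.mem_coe, Finset.mem_filter, Finset.mem_range]
      refine ⟨hj, ?_⟩
      have h7 : (χ ^ j) c = -1 := by rw [h4, hψ2]
      rw [MonoidHom.pow_apply, hc] at h7
      exact (CE2_neg j).1 h7
  obtain ⟨b', rfl⟩ : ∃ b', b = b' + 1 := ⟨b - 1, by omega⟩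
  rw [CE2_odds] at hcard
  rw [← hcard]
  exact ⟨Nat.one_le_two_pow, pow_dvd_pow 2 (by omega)⟩


theorem CE2_root {G : Type} [CommGroup G] [Finite G] (χ : G →* ℂˣ) (σ : G) :
    IsIntegral ℤ (((χ σ)⁻¹ : ℂˣ) : ℂ) := by
  have h1 : (((χ σ)⁻¹ : ℂˣ) : ℂ) ^ Nat.card G = 1 := by
    rw [← Units.val_pow_eq_pow_val, inv_pow, ← map_pow, pow_card_eq_one', map_one, inv_one,
      Units.val_one]
  refine IsIntegral.of_pow (n := Nat.card G) Nat.card_pos ?_
  rw [h1]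
  exact isIntegral_one

theorem CE2 (hCO1 : CO1_stmt) (hCO2 : CO2_stmt) (hCOE : COE_stmt) : CE2_stmt := by
  intro G _ _ m h a g₀ c hG hexp hc hc1 hcc y n s k hy hint hs0 hs1
  have : Fact (Nat.Prime 2) := ⟨Nat.prime_two⟩
  have hord : orderOf g₀ = 2 ^ (h + 1) := by
    refine orderOf_eq_prime_pow (by rw [← hc]; exact hc1) ?_
    rw [pow_succ, pow_mul, ← hc, pow_two]
    exact hcc
  have hhm : h + 1 ≤ m := by
    have h1 := orderOf_dvd_natCard g₀
    rw [hord, hG] at h1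
    exact (Nat.pow_dvd_pow_iff_le_right (by norm_num)).1 h1
  have hha : h + 1 ≤ a := by
    have h1 := orderOf_dvd_of_pow_eq_one (hexp g₀)
    rw [hord] at h1
    exact (Nat.pow_dvd_pow_iff_le_right (by norm_num)).1 h1
  have h20 : (2 : ℂ) ≠ 0 := two_ne_zero
  have h2Z : (2 : ℂ) ∈ CE2_Z := CE2_Z_int CE2_two
  rcases Nat.eq_zero_or_pos s with hs | hs
  · -- the case `s = 0`
    subst hs
    have hk := hs0 rfl
    obtain ⟨d, hd, hdσ⟩ := hCOE G m h g₀ c hG hc hc1 hcc y 1 n hy (by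
      intro χ hχ
      obtain ⟨hN1, -⟩ := CE2_card a hexp c χ hχ
      obtain ⟨N, hN⟩ : ∃ N, (Psi χ.ker c).card = N + 1 := ⟨(Psi χ.ker c).card - 1, by omega⟩
      have h1 : (2 * evQ χ y ^ (Psi χ.ker c).card / 2 ^ (n * (Psi χ.ker c).card + 0) : ℂ) ∈ CE2_Z :=
        hint χ hχ
      rw [hN, add_zero] at h1
      refine (CE2_Z_root (M := N + 1) (Nat.succ_ne_zero N) ?_ : (2 ^ 1 * evQ χ y / 2 ^ n : ℂ) ∈ CE2_Z)
      have h2 : (2 ^ 1 * evQ χ y / 2 ^ n : ℂ) ^ (N + 1) =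
          2 ^ N * (2 * evQ χ y ^ (N + 1) / 2 ^ (n * (N + 1))) := by
        rw [pow_one, div_pow, mul_pow, ← pow_mul, pow_succ 2 N]
        ring
      rw [h2]
      exact CE2_Z.mul_mem (CE2_Z.pow_mem h2Z N) h1)
    refine ⟨d, hd, fun σ => ?_⟩
    obtain ⟨z, hz⟩ := hdσ σ
    obtain ⟨e, he⟩ : ∃ e, k = (m + 1 - (h + n)) + e := ⟨k - (m + 1 - (h + n)), by omega⟩
    refine ⟨2 ^ e * z, ?_⟩
    push_cast
    rw [← hz, he, pow_add]
    ring
  · -- the case `s ≥ 1`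
    have hk := hs1 (Nat.pos_iff_ne_zero.1 hs)
    set M : ℕ := 2 ^ (a - 1) with hM
    have hM0 : M ≠ 0 := by positivity
    obtain ⟨θ, hθ⟩ : ∃ θ : ℂ, θ ^ M = 2 := IsAlgClosed.exists_pow_nat_eq 2 (Nat.pos_of_ne_zero hM0)
    have hθ0 : θ ≠ 0 := by
      intro h0
      rw [h0, zero_pow hM0] at hθ
      exact h20 hθ.symm
    obtain ⟨t, rfl⟩ : ∃ t, s = t + 1 := ⟨s - 1, by omega⟩
    have hχZ : ∀ χ : G →* ℂˣ, χ c = -1 → evQ χ y / (2 ^ n * θ ^ t) ∈ CE2_Z := by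
      intro χ hχ
      obtain ⟨hN1, q, hq⟩ := CE2_card a hexp c χ hχ
      have h1 : (2 * evQ χ y ^ (Psi χ.ker c).card / 2 ^ (n * (Psi χ.ker c).card + (t + 1)) : ℂ) ∈
        CE2_Z := hint χ hχ
      set N : ℕ := (Psi χ.ker c).card with hN
      have hq1 : 1 ≤ q := by
        rcases Nat.eq_zero_or_pos q with h0 | h0
        · rw [h0, mul_zero] at hq
          exact absurd hq hM0
        · exact h0
      obtain ⟨q', rfl⟩ : ∃ q', q = q' + 1 := ⟨q - 1, by omega⟩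
      refine CE2_Z_root (M := M) hM0 ?_
      have h2 : (evQ χ y / (2 ^ n * θ ^ t)) ^ M = (2 ^ t) ^ q' *
          (2 * evQ χ y ^ N / 2 ^ (n * N + (t + 1))) ^ (q' + 1) := by
        have e1 : (θ ^ t) ^ M = 2 ^ t := by
          rw [← pow_mul, mul_comm t M, pow_mul, hθ]
        rw [div_pow, mul_pow, e1, div_pow, mul_pow, ← pow_mul, ← pow_mul (evQ χ y), ← hq, ← pow_mul,
          ← pow_mul]
        have e2 : (n * N + (t + 1)) * (q' + 1) = n * M + t + t * q' + (q' + 1) := by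
          rw [hM, hq]
          ring
        rw [e2, pow_add, pow_add, pow_add]
        field_simp
        rw [← hM, pow_add, pow_succ]
        ring
      rw [h2]
      exact CE2_Z.mul_mem (CE2_Z.pow_mem (CE2_Z.pow_mem h2Z t) q') (CE2_Z.pow_mem h1 _)
    obtain ⟨ζ, hζ, hζo⟩ : ∃ ζ : ℂˣ, IsPrimitiveRoot (ζ : ℂ) (2 ^ (h + 1)) ∧
        orderOf ζ = 2 ^ (h + 1) := by
      have h1 := Complex.isPrimitiveRoot_exp (2 ^ (h + 1)) (by positivity)
      refine ⟨Units.mk0 _ (h1.ne_zero (by positivity)), h1, ?_⟩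
      exact (IsPrimitiveRoot.eq_orderOf (IsPrimitiveRoot.coe_units_iff.1 h1)).symm
    have hodd : ∀ χ : G →* ℂˣ, χ g₀ = ζ → χ c = -1 := by
      intro χ hχ
      rw [hc, map_pow, hχ]
      apply Units.ext
      rw [Units.val_pow_eq_pow_val, Units.val_neg, Units.val_one]
      have h1 : IsPrimitiveRoot ((ζ : ℂ) ^ 2 ^ h) 2 :=
        hζ.pow (by positivity) (by rw [pow_succ])
      exact h1.eq_neg_one_of_two_right
    have hy' : MonoidAlgebra.single (g₀ ^ 2 ^ h) 1 * y = -y := by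
      rw [← hc]
      exact hy
    obtain ⟨u, hu0, hu1, hu2, hu3⟩ := CE2_unit h (ζ : ℂ) hζ
    have hσ : ∀ σ : G, ∃ d : ℕ, Odd d ∧ ∃ z : ℤ, (d : ℚ) * (2 ^ k * y.coeff σ) = z := by
      intro σ
      have h1 := hCO1 G h g₀ hord ζ hζo y hy' σ
      set β : ℂ := ∑ i ∈ Finset.range (2 ^ h), ((y.coeff (σ * g₀ ^ i) : ℚ) : ℂ) * (ζ : ℂ) ^ i with hβ
      set S : ℂ := ∑ χ ∈ Finset.univ.filter (fun χ : G →* ℂˣ => χ g₀ = ζ),
        evQ χ y * ((χ σ)⁻¹ : ℂˣ) with hS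
      have hS2 : S = 2 ^ (m - h) * β := by
        rw [hG] at h1
        have e1 : (2 : ℂ) ^ m * (2 * β) = 2 ^ (h + 1) * (2 ^ (m - h) * β) := by
          have e2 : m + 1 = (h + 1) + (m - h) := by omega
          calc (2 : ℂ) ^ m * (2 * β) = 2 ^ (m + 1) * β := by ring
            _ = 2 ^ (h + 1) * (2 ^ (m - h) * β) := by rw [e2, pow_add]; ring
        push_cast at h1
        rw [e1] at h1
        exact mul_left_cancel₀ (pow_ne_zero _ h20) h1
      have hSZ : S / (2 ^ n * θ ^ t) ∈ CE2_Z := by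
        rw [hS, Finset.sum_div]
        refine CE2_Z.sum_mem fun χ hχ => ?_
        have e1 : evQ χ y * (((χ σ)⁻¹ : ℂˣ) : ℂ) / (2 ^ n * θ ^ t) =
            (evQ χ y / (2 ^ n * θ ^ t)) * (((χ σ)⁻¹ : ℂˣ) : ℂ) := by ring
        rw [e1]
        refine CE2_Z.mul_mem (hχZ χ (hodd χ (Finset.mem_filter.1 hχ).2)) (CE2_Z_int (CE2_root χ σ))
      -- the application of `CE2_key`
      obtain ⟨d, hd, hdi⟩ := CE2_key hCO2 h (ζ : ℂ) hζ (fun i => 2 ^ k * y.coeff (σ * g₀ ^ i)) M hM0 (by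
        have e1 : ∑ i ∈ Finset.range (2 ^ h), (((2 ^ k * y.coeff (σ * g₀ ^ i) : ℚ)) : ℂ) *
            (ζ : ℂ) ^ i = 2 ^ k * β := by
          rw [hβ, Finset.mul_sum]
          apply Finset.sum_congr rfl
          intro i _
          push_cast
          ring
        rw [e1]
        obtain ⟨e, he⟩ : ∃ e, (n + h + k) * M + (t + 1) + 2 ^ (a - 1 - h) = m * M + 2 + e :=
          ⟨_, (Nat.add_sub_cancel' hk).symm⟩
        have hMh : M = 2 ^ h * 2 ^ (a - 1 - h) := by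
          rw [hM, ← pow_add]
          congr 1
          omega
        have hπM : (1 - (ζ : ℂ)) ^ M = 2 ^ 2 ^ (a - 1 - h) * u ^ 2 ^ (a - 1 - h) := by
          rw [hMh, pow_mul, hu3, mul_pow]
        have hSM : (S / (2 ^ n * θ ^ t)) ^ M = 2 ^ ((m - h) * M) * β ^ M / (2 ^ (n * M) * 2 ^ t) := by
          have e1 : (θ ^ t) ^ M = 2 ^ t := by
            rw [← pow_mul, mul_comm t M, pow_mul, hθ]
          rw [hS2, div_pow, mul_pow, mul_pow, e1, ← pow_mul, ← pow_mul]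
        have hfin : ((1 - (ζ : ℂ)) * (2 ^ k * β)) ^ M / 2 =
            u ^ 2 ^ (a - 1 - h) * 2 ^ e * (S / (2 ^ n * θ ^ t)) ^ M := by
          rw [hSM, mul_pow, hπM, mul_pow, ← pow_mul]
          have e2 : 2 ^ (a - 1 - h) + k * M + (n * M + t) = e + (m - h) * M + 1 := by
            obtain ⟨m', rfl⟩ : ∃ m', m = m' + h := ⟨m - h, by omega⟩
            rw [Nat.add_sub_cancel]
            nlinarith
          have e3 : (2 : ℂ) ^ 2 ^ (a - 1 - h) * 2 ^ (k * M) * (2 ^ (n * M) * 2 ^ t) =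
              2 ^ e * 2 ^ ((m - h) * M) * 2 := by
            rw [← pow_add, ← pow_add, ← pow_add, ← pow_add, e2, pow_succ]
          have e4 : (2 : ℂ) ^ (n * M) * 2 ^ t ≠ 0 := by positivity
          rw [div_eq_iff h20, mul_div_assoc', div_mul_eq_mul_div, eq_div_iff e4]
          linear_combination (u ^ 2 ^ (a - 1 - h) * β ^ M) * e3
        rw [hfin]
        exact CE2_Z.mul_mem (CE2_Z.mul_mem (CE2_Z_int (hu1.pow _)) (CE2_Z.pow_mem h2Z e))
          (CE2_Z.pow_mem hSZ M))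
      obtain ⟨z, hz⟩ := hdi 0 (by positivity)
      refine ⟨d, hd, z, ?_⟩
      simpa using hz
    choose dd hd1 hd2 using hσ
    have hfG : Fintype G := Fintype.ofFinite G
    refine ⟨∏ σ : G, dd σ, ?_, fun σ => ?_⟩
    · exact Finset.prod_induction _ Odd (fun _ _ => Odd.mul) odd_one fun σ _ => hd1 σ
    · obtain ⟨l, hl⟩ := Finset.dvd_prod_of_mem dd (Finset.mem_univ σ)
      obtain ⟨z, hz⟩ := hd2 σ
      refine ⟨l * z, ?_⟩
      rw [hl]
      push_cast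
      rw [← hz]
      ring

end Pool.Agent.RB
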